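import Pool.Agent.Y223.G.Stm7
import Pool.Agent.Y901.G.Btam
import Pool.Agent.H920R2.Sr1

/-!
# Project G: products of linearly disjoint smooth algebras over a Dedekind domain are regular
-/

set_option autoImplicit false

namespace Pool.Agent.Y391.G

open IsLocalRing Pool.Agent.Y223.G

/-- Étale over a regular ring near a prime ideal implies regular at the prime ideal. -/
theorem regular_of_et {P C : Type} [CommRing P] [IsRegularRing P] [CommRing C] (g : C)
    (f : P →+* Localization.Away g) (h : f.Etale) (q : Ideal C) [q.IsPrime] (hg : g ∉ q) :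
    IsRegularLocalRing (Localization.AtPrime q) := by
  let _ : Algebra P (Localization.Away g) := f.toAlgebra
  have het' : Algebra.Etale P (Localization.Away g) := h
  have hQ : (Ideal.map (algebraMap C (Localization.Away g)) q).IsPrime :=
    IsLocalization.isPrime_of_isPrime_disjoint (.powers g) _ _ ‹_›
      ((Ideal.disjoint_powers_iff_notMem_of_isPrime _).mpr hg)
  have h1 := Pool.Agent.H920R2.regular_of_etale (P := P)
    (Ideal.map (algebraMap C (Localization.Away g)) q)
  have h2 : (Ideal.map (algebraMap C (Localization.Away g)) q).comap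
      (algebraMap C (Localization.Away g)) = q :=
    IsLocalization.under_map_of_isPrime_disjoint (.powers g) _ ‹_›
      ((Ideal.disjoint_powers_iff_notMem_of_isPrime _).mpr hg)
  have h3 := IsLocalization.isLocalization_isLocalization_atPrime_isLocalization (.powers g)
    (Localization.AtPrime (Ideal.map (algebraMap C (Localization.Away g)) q))
    (Ideal.map (algebraMap C (Localization.Away g)) q)
  simp only [h2] at h3
  exact IsRegularLocalRing.of_ringEquiv (IsLocalization.algEquiv q.primeCompl
    (Localization.AtPrime (Ideal.map (algebraMap C (Localization.Away g)) q))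
    (Localization.AtPrime q)).toRingEquiv

/-- A product of linearly disjoint smooth algebras over a Dedekind domain is regular. -/
theorem t_SMRG : S_COORD → S_ETF → S_SMRG := by
  intro hC hE O K _ _ _ _ _ hinj Ω _ A hft hld hsm
  have hftC : Algebra.FiniteType O (⨆ ω, A ω : Subalgebra O K) :=
    Pool.Agent.Y901.G.ft_iSup A hft
  have hN : IsNoetherianRing (⨆ ω, A ω : Subalgebra O K) :=
    Algebra.FiniteType.isNoetherianRing O _
  rw [isRegularRing_iff]
  intro Q _
  have h1 : ∀ ω, ∃ (r : ℕ) (u : Fin r → A ω),
      EtAt (A ω) (Q.comap (Subalgebra.inclusion (le_iSup A ω) : A ω →+* _)) u := by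
    intro ω
    have hp : (Q.comap (Subalgebra.inclusion (le_iSup A ω) : A ω →+* _)).IsPrime :=
      Ideal.comap_isPrime _ _
    obtain ⟨r, u, h, _⟩ := hC O K (A ω) (hft ω)
      (Q.comap (Subalgebra.inclusion (le_iSup A ω) : A ω →+* _)) (hsm ω _)
    exact ⟨r, u, h⟩
  choose r u hu using h1
  obtain ⟨g, hg, het⟩ := hE O K hinj Ω A hld Q (fun ω => Fin (r ω)) u hu
  exact regular_of_et (P := MvPolynomial ((ω : Ω) × Fin (r ω)) O) g _ het Q hg

end Pool.Agent.Y391.G
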